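import Pool.Agent.Work.MP_d78dd4_lc.MU.Defs

set_option autoImplicit false

/-!
# Finite forward orbits from one bounding function (module BBM, M, adaptation of `../BB.lean`)

Proof.  Copy `../BB.lean` from the section on the restricted letters on (the orbit part `kk` etc. of `BB` can be reused: the
lemmas `kk_unbounded`, `measurable_kk` are private there, so copy the whole file with private names or with a
new namespace `BBM`).  Changes in the proof of `exists_finiteForward`:
* the function `κ x l = ∑ c in range (l+1), kk (word p (e c)) ι x` depends only on `E` (through the partial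
  injections `p i` which come from `hE.exists_genSeq`): it is the `κ` of the statement;
* for given `ψ`, `A` let `good i a := {x | x ∈ A ∧ ∀ n, a ≤ n → κ x n ≤ ψ x n ∧ κ (p i x) n ≤ ψ (p i x) n}` (or keep
  also the clause `ψ x n = ψ (p i x) n` of `BB`, which is true because `E x (p i x)` and `ψ` is `E`-invariant) and
  let `q (i, a)` be the restriction of `p i` to `(p i).source ∩ good i a`;
* `θ` enumerates the words in the `q t`.  `θ.Rel x y ↔ x = y ∨ (x ∈ A ∧ E x y)`:
  → : let `L` be a word with `word q L x = y`, `x` in its source.  `L = []` gives `x = y`.  Otherwise the first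
      applied letter (the last of the list) has `x` in its source, so `x ∈ A` (for an inverse letter `(q t)⁻¹` at `x`:
      `x = p i x'` with `x' ∈ A`, `E x' x`, so `x ∈ A` by invariance), and `E x y` by `word_rel`.
  ← : `x = y`: empty word.  `x ∈ A`, `E x y`: then `y ∈ A`; pick `i` with `p i x = y` and `a` beyond the two bounds
      `N` of `x` and `y` : one letter `q (i, a)`.
* finite forward orbits: as in `BB` (a word `L ≠ []` with an infinite injective forward orbit keeps `ψ` constant
  (`ψ` is `E`-invariant) and `κ · l ≤ ψ · l` for `l ≥ A₀` = the largest bound in `L`, but `kk` of the stripped word is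
  unbounded along the orbit).
-/

namespace Pool.Agent.Work.MP_d78dd4_lc

open Set

namespace BBM

/-! ### A function which is unbounded along forward orbits -/

section orbit

variable {X : Type}

/-- the first `n` bits -/
private def pre (u : ℕ → Bool) : ℕ → List Bool
  | 0 => []
  | n + 1 => pre u n ++ [u n]

variable (w : X → X) (ι : X → ℕ → Bool)

/-- the forward orbit visits the cylinder of `σ` infinitely often -/
private def Vis (x : X) (n : ℕ) (σ : List Bool) : Prop := ∀ N : ℕ, ∃ j, N ≤ j ∧ pre (ι (w^[j] x)) n = σ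

open Classical in
/-- the next bit of the least accumulation point -/
private noncomputable def bit (x : X) (m : ℕ) (σ : List Bool) : Bool := decide (¬ Vis w ι x m (σ ++ [false]))

open Classical in
private theorem bit_true {x : X} {m : ℕ} {σ : List Bool} :
    bit w ι x m σ = true ↔ ¬ Vis w ι x m (σ ++ [false]) := by
  unfold bit
  exact decide_eq_true_iff

open Classical in
private theorem bit_false {x : X} {m : ℕ} {σ : List Bool} :
    bit w ι x m σ = false ↔ Vis w ι x m (σ ++ [false]) := by
  unfold bit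
  rw [decide_eq_false_iff_not, not_not]

/-- the least accumulation point of the forward orbit -/
private noncomputable def T (x : X) : ℕ → List Bool
  | 0 => []
  | n + 1 => T x n ++ [bit w ι x (n + 1) (T x n)]

private theorem vis_T (x : X) (n : ℕ) : Vis w ι x n (T w ι x n) := by
  induction n with
  | zero => exact fun N => ⟨N, le_rfl, rfl⟩
  | succ n ih =>
    by_cases h : Vis w ι x (n + 1) (T w ι x n ++ [false])
    · have h1 : T w ι x (n + 1) = T w ι x n ++ [false] := by
        rw [T, (bit_false w ι).2 h]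
      rw [h1]
      exact h
    · have h1 : T w ι x (n + 1) = T w ι x n ++ [true] := by
        rw [T, (bit_true w ι).2 h]
      rw [h1]
      unfold Vis at h
      push Not at h
      obtain ⟨N₀, hN₀⟩ := h
      intro N
      obtain ⟨j, hj, h2⟩ := ih (max N N₀)
      refine ⟨j, (le_max_left _ _).trans hj, ?_⟩
      have h3 := hN₀ j ((le_max_right _ _).trans hj)
      show pre (ι (w^[j] x)) n ++ [ι (w^[j] x) n] = _
      have h4 : pre (ι (w^[j] x)) (n + 1) = T w ι x n ++ [ι (w^[j] x) n] := by
        rw [← h2]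
        rfl
      cases hb : ι (w^[j] x) n with
      | true => rw [h2]
      | false =>
        rw [hb] at h4
        exact absurd h4 h3

private theorem vis_tail (x : X) (n : ℕ) (σ : List Bool) : Vis w ι (w x) n σ ↔ Vis w ι x n σ := by
  constructor
  · intro h N
    obtain ⟨j, hj, h1⟩ := h N
    exact ⟨j + 1, by omega, h1⟩
  · intro h N
    obtain ⟨j, hj, h1⟩ := h (N + 1)
    obtain ⟨i, rfl⟩ : ∃ i, j = i + 1 := ⟨j - 1, by omega⟩
    exact ⟨i, by omega, h1⟩

private theorem T_tail (x : X) (n : ℕ) : T w ι (w x) n = T w ι x n := by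
  induction n with
  | zero => rfl
  | succ n ih =>
    have h1 : bit w ι (w x) (n + 1) (T w ι x n) = bit w ι x (n + 1) (T w ι x n) := by
      rw [Bool.eq_iff_iff, bit_true, bit_true, vis_tail]
    rw [T, T, ih, h1]

private theorem T_iter (x : X) (n j : ℕ) : T w ι (w^[j] x) n = T w ι x n := by
  induction j with
  | zero => rfl
  | succ j ih => rw [Function.iterate_succ_apply', T_tail, ih]

open Classical in
private theorem kk_ex (x : X) : ∃ n, pre (ι x) n ≠ T w ι x n ∨ ∀ m, pre (ι x) m = T w ι x m := by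
  by_cases h : ∀ m, pre (ι x) m = T w ι x m
  · exact ⟨0, Or.inr h⟩
  · push Not at h
    obtain ⟨m, hm⟩ := h
    exact ⟨m, Or.inl hm⟩

open Classical in
/-- the length of agreement with the least accumulation point -/
private noncomputable def kk (x : X) : ℕ := Nat.find (kk_ex w ι x)

private theorem pre_down {u : ℕ → Bool} {x : X} {n m : ℕ} (h : n ≤ m) (hm : pre u m = T w ι x m) :
    pre u n = T w ι x n := by
  induction m with
  | zero =>
    obtain rfl : n = 0 := by omega
    rfl
  | succ m ih =>
    rcases Nat.lt_or_ge m n with h1 | h1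
    · obtain rfl : n = m + 1 := by omega
      exact hm
    · refine ih h1 ?_
      have h2 : pre u m ++ [u m] = T w ι x m ++ [bit w ι x (m + 1) (T w ι x m)] := hm
      exact (List.append_inj' h2 rfl).1

private theorem pre_ext {u v : ℕ → Bool} (h : ∀ n, pre u n = pre v n) : u = v := by
  funext n
  have h1 : pre u n ++ [u n] = pre v n ++ [v n] := h (n + 1)
  have h2 := (List.append_inj' h1 rfl).2
  simpa using h2

/-- `kk` is unbounded along injective forward orbits -/
private theorem kk_unbounded (hι : Function.Injective ι) (x : X)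
    (hx : ∀ i j, w^[i] x = w^[j] x → i = j) (M : ℕ) : ∃ j, M ≤ kk w ι (w^[j] x) := by
  classical
  obtain ⟨i, -, hi⟩ := vis_T w ι x M 0
  obtain ⟨j, hj, hj'⟩ := vis_T w ι x M (i + 1)
  have key : ∀ y, pre (ι y) M = T w ι y M → ¬ (∀ m, pre (ι y) m = T w ι y m) → M ≤ kk w ι y := by
    intro y h1 h2
    refine (Nat.le_find_iff _ _).2 fun m hm => ?_
    rintro (h3 | h3)
    · exact h3 (pre_down w ι hm.le h1)
    · exact h2 h3
  by_cases h1 : ∀ m, pre (ι (w^[i] x)) m = T w ι (w^[i] x) m
  · refine ⟨j, key _ (by rw [T_iter]; exact hj') fun h2 => ?_⟩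
    have h3 : ι (w^[i] x) = ι (w^[j] x) := pre_ext fun m => by rw [h1, h2, T_iter, T_iter]
    have h4 := hx _ _ (hι h3)
    omega
  · exact ⟨i, key _ (by rw [T_iter]; exact hi) h1⟩

variable [MeasurableSpace X]

private theorem measurableSet_pre {Y : Type} [MeasurableSpace Y] {f : Y → ℕ → Bool} (hf : Measurable f)
    (n : ℕ) (σ : List Bool) : MeasurableSet {y | pre (f y) n = σ} := by
  induction n generalizing σ with
  | zero => exact MeasurableSet.const ([] = σ)
  | succ n ih =>
    rcases List.eq_nil_or_concat' σ with rfl | ⟨τ, b, rfl⟩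
    · have h0 : {y | pre (f y) (n + 1) = []} = ∅ := by
        ext y
        constructor
        · intro h
          have h1 : pre (f y) n ++ [f y n] = [] := h
          simp at h1
        · exact fun h => h.elim
      rw [h0]
      exact MeasurableSet.empty
    · have h1 : {y | pre (f y) (n + 1) = τ ++ [b]} = {y | pre (f y) n = τ} ∩ {y | f y n = b} := by
        ext y
        constructor
        · intro h
          have h2 : pre (f y) n ++ [f y n] = τ ++ [b] := h
          have h3 := List.append_inj' h2 rfl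
          exact ⟨h3.1, by simpa using h3.2⟩
        · rintro ⟨h2, h3⟩
          show pre (f y) n ++ [f y n] = τ ++ [b]
          have h2' : pre (f y) n = τ := h2
          have h3' : f y n = b := h3
          rw [h2', h3']
      rw [h1]
      exact (ih τ).inter ((measurable_pi_apply n |>.comp hf) (measurableSet_singleton b))

variable {w ι}

private theorem measurableSet_vis (hw : Measurable w) (hι : Measurable ι) (n : ℕ) (σ : List Bool) :
    MeasurableSet {x | Vis w ι x n σ} := by
  have h1 : {x | Vis w ι x n σ} = ⋂ N : ℕ, ⋃ j : ℕ, ⋃ _ : N ≤ j, {x | pre (ι (w^[j] x)) n = σ} := by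
    ext x
    simp only [mem_iInter, mem_iUnion]
    constructor
    · intro h N
      obtain ⟨j, hj, h2⟩ := h N
      exact ⟨j, hj, h2⟩
    · intro h N
      obtain ⟨j, hj, h2⟩ := h N
      exact ⟨j, hj, h2⟩
  rw [h1]
  exact MeasurableSet.iInter fun N => MeasurableSet.iUnion fun j => MeasurableSet.iUnion fun _ =>
    measurableSet_pre (hι.comp (hw.iterate j)) n σ

private theorem measurableSet_T (hw : Measurable w) (hι : Measurable ι) (n : ℕ) (σ : List Bool) :
    MeasurableSet {x | T w ι x n = σ} := by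
  induction n generalizing σ with
  | zero => exact MeasurableSet.const ([] = σ)
  | succ n ih =>
    rcases List.eq_nil_or_concat' σ with rfl | ⟨τ, b, rfl⟩
    · have h0 : {y | T w ι y (n + 1) = []} = ∅ := by
        ext y
        constructor
        · intro h
          have h1 : T w ι y n ++ [bit w ι y (n + 1) (T w ι y n)] = [] := h
          simp at h1
        · exact fun h => h.elim
      rw [h0]
      exact MeasurableSet.empty
    · have h1 : {x | T w ι x (n + 1) = τ ++ [b]} =
          {x | T w ι x n = τ} ∩ {x | bit w ι x (n + 1) τ = b} := by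
        ext x
        constructor
        · intro h
          have h2 : T w ι x n ++ [bit w ι x (n + 1) (T w ι x n)] = τ ++ [b] := h
          have h3 := List.append_inj' h2 rfl
          have h4 : bit w ι x (n + 1) (T w ι x n) = b := by simpa using h3.2
          refine ⟨h3.1, ?_⟩
          rw [h3.1] at h4
          exact h4
        · rintro ⟨h2, h3⟩
          have h2' : T w ι x n = τ := h2
          have h3' : bit w ι x (n + 1) τ = b := h3
          show T w ι x n ++ [bit w ι x (n + 1) (T w ι x n)] = τ ++ [b]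
          rw [h2', h3']
      rw [h1]
      refine (ih τ).inter ?_
      cases b with
      | true =>
        have h2 : {x | bit w ι x (n + 1) τ = true} = {x | Vis w ι x (n + 1) (τ ++ [false])}ᶜ := by
          ext x
          exact bit_true w ι
        rw [h2]
        exact (measurableSet_vis hw hι _ _).compl
      | false =>
        have h2 : {x | bit w ι x (n + 1) τ = false} = {x | Vis w ι x (n + 1) (τ ++ [false])} := by
          ext x
          exact bit_false w ι
        rw [h2]
        exact measurableSet_vis hw hι _ _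

private theorem measurable_kk (hw : Measurable w) (hι : Measurable ι) : Measurable (kk w ι) := by
  classical
  have h0 : ∀ n, MeasurableSet {x | pre (ι x) n = T w ι x n} := by
    intro n
    have h1 : {x | pre (ι x) n = T w ι x n} = ⋃ σ : List Bool, {x | pre (ι x) n = σ} ∩ {x | T w ι x n = σ} := by
      ext x
      simp only [mem_iUnion]
      constructor
      · intro h
        exact ⟨T w ι x n, h, rfl⟩
      · rintro ⟨σ, h, h'⟩
        have h2 : pre (ι x) n = σ := h
        have h3 : T w ι x n = σ := h'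
        show pre (ι x) n = T w ι x n
        rw [h2, h3]
    rw [h1]
    exact MeasurableSet.iUnion fun σ => (measurableSet_pre hι n σ).inter (measurableSet_T hw hι n σ)
  refine measurable_find (kk_ex w ι) fun n => ?_
  have h1 : {x | pre (ι x) n ≠ T w ι x n ∨ ∀ m, pre (ι x) m = T w ι x m} =
      {x | pre (ι x) n = T w ι x n}ᶜ ∪ ⋂ m, {x | pre (ι x) m = T w ι x m} := by
    ext x
    simp only [mem_union, mem_iInter]
    rfl
  rw [h1]
  exact (h0 n).compl.union (MeasurableSet.iInter h0)

end orbit

/-! ### The restricted letters -/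

section letters

variable {X : Type} (p : ℕ → PartialEquiv X X) (κ ψ : X → ℕ → ℕ)

/-- beyond `a`: `κ ≤ ψ` at `x` and at `p i x`, and `ψ x = ψ (p i x)` -/
private def good (i a : ℕ) : Set X :=
  {x | ∀ n, a ≤ n → κ x n ≤ ψ x n ∧ κ (p i x) n ≤ ψ (p i x) n ∧ ψ x n = ψ (p i x) n}

/-- the letter `p i` restricted to the points which are good beyond `a` -/
private def q (t : ℕ × ℕ) : PartialEquiv X X where
  toFun := p t.1
  invFun := (p t.1).symm
  source := (p t.1).source ∩ good p κ ψ t.1 t.2
  target := (p t.1).target ∩ (p t.1).symm ⁻¹' good p κ ψ t.1 t.2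
  map_source' x hx := ⟨(p t.1).map_source hx.1, by
    show (p t.1).symm (p t.1 x) ∈ good p κ ψ t.1 t.2
    rw [(p t.1).left_inv hx.1]
    exact hx.2⟩
  map_target' y hy := ⟨(p t.1).map_target hy.1, hy.2⟩
  left_inv' x hx := (p t.1).left_inv hx.1
  right_inv' y hy := (p t.1).right_inv hy.1

/-- forget the bound -/
private def strip (l : (ℕ × ℕ) × Bool) : ℕ × Bool := (l.1.1, l.2)

private theorem letter_q (l : (ℕ × ℕ) × Bool) {y : X} (hy : y ∈ (letter (q p κ ψ) l).source) :
    y ∈ (letter p (strip l)).source ∧ letter (q p κ ψ) l y = letter p (strip l) y ∧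
      ∀ n, l.1.2 ≤ n → ψ (letter (q p κ ψ) l y) n = ψ y n ∧ κ y n ≤ ψ y n := by
  obtain ⟨⟨i, a⟩, b⟩ := l
  cases b with
  | true =>
    have hy' : y ∈ (p i).source ∩ good p κ ψ i a := hy
    refine ⟨hy'.1, rfl, fun n hn => ?_⟩
    obtain ⟨h1, h2, h3⟩ := hy'.2 n hn
    exact ⟨h3.symm, h1⟩
  | false =>
    have hy' : y ∈ (p i).target ∩ (p i).symm ⁻¹' good p κ ψ i a := hy
    refine ⟨hy'.1, rfl, fun n hn => ?_⟩
    obtain ⟨h1, h2, h3⟩ := hy'.2 n hn
    rw [(p i).right_inv hy'.1] at h2 h3
    exact ⟨h3, h2⟩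

private theorem word_q (A : ℕ) (L : List ((ℕ × ℕ) × Bool)) (hA : ∀ l ∈ L, l.1.2 ≤ A) {x : X}
    (hx : x ∈ (word (q p κ ψ) L).source) :
    word (q p κ ψ) L x = word p (L.map strip) x ∧
      (∀ n, A ≤ n → ψ (word (q p κ ψ) L x) n = ψ x n) ∧ (L ≠ [] → ∀ n, A ≤ n → κ x n ≤ ψ x n) := by
  induction L with
  | nil => exact ⟨rfl, fun _ _ => rfl, fun h => absurd rfl h⟩
  | cons l L ih =>
    obtain ⟨h1, h2⟩ := word_cons_mem.1 hx
    obtain ⟨h3, h4, h5⟩ := ih (fun l' hl' => hA l' (List.mem_cons_of_mem _ hl')) h1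
    obtain ⟨h6, h7, h8⟩ := letter_q p κ ψ l h2
    have hl : l.1.2 ≤ A := hA l List.mem_cons_self
    refine ⟨?_, fun n hn => ?_, fun _ n hn => ?_⟩
    · show letter (q p κ ψ) l (word (q p κ ψ) L x) = letter p (strip l) (word p (L.map strip) x)
      rw [h7, h3]
    · show ψ (letter (q p κ ψ) l (word (q p κ ψ) L x)) n = ψ x n
      rw [(h8 n (hl.trans hn)).1, h4 n hn]
    · rcases L with _ | ⟨l', L'⟩
      · exact (h8 n (hl.trans hn)).2
      · exact h5 (by simp) n hn

variable [MeasurableSpace X] {p κ ψ}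

private theorem isBorelPI_q (hp : ∀ i, IsBorelPI (p i)) (hκ : Measurable κ) (hψ : Measurable ψ)
    (t : ℕ × ℕ) : IsBorelPI (q p κ ψ t) := by
  have h1 : MeasurableSet (good p κ ψ t.1 t.2) := by
    have h2 : good p κ ψ t.1 t.2 = ⋂ n : ℕ, ⋂ _ : t.2 ≤ n, ({x | κ x n ≤ ψ x n} ∩
        ({x | κ (p t.1 x) n ≤ ψ (p t.1 x) n} ∩ {x | ψ x n = ψ (p t.1 x) n})) := by
      ext x
      simp only [mem_iInter]
      rfl
    have hk : ∀ n, Measurable fun x => κ x n := fun n => (measurable_pi_apply n).comp hκ
    have hs : ∀ n, Measurable fun x => ψ x n := fun n => (measurable_pi_apply n).comp hψ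
    rw [h2]
    refine MeasurableSet.iInter fun n => MeasurableSet.iInter fun _ => ?_
    exact (measurableSet_le (hk n) (hs n)).inter ((measurableSet_le ((hk n).comp (hp t.1).meas)
      ((hs n).comp (hp t.1).meas)).inter (measurableSet_eq_fun (hs n) ((hs n).comp (hp t.1).meas)))
  exact ⟨(hp t.1).source.inter h1, (hp t.1).target.inter ((hp t.1).meas_symm h1), (hp t.1).meas,
    (hp t.1).meas_symm⟩

end letters

private def rp {X : Type} (p : ℕ → PartialEquiv X X) (A : Set X) (i : ℕ) : PartialEquiv X X where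
  toFun := p i
  invFun := (p i).symm
  source := (p i).source ∩ A
  target := (p i).target ∩ (p i).symm ⁻¹' A
  map_source' x hx := ⟨(p i).map_source hx.1, by
    show (p i).symm (p i x) ∈ A
    rw [(p i).left_inv hx.1]
    exact hx.2⟩
  map_target' y hy := ⟨(p i).map_target hy.1, hy.2⟩
  left_inv' x hx := (p i).left_inv hx.1
  right_inv' y hy := (p i).right_inv hy.1

private theorem rp_word {X : Type} (p : ℕ → PartialEquiv X X) (A : Set X)
    (L : List (ℕ × Bool)) (x : X) : word (rp p A) L x = word p L x := by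
  induction L with
  | nil => rfl
  | cons l L ih =>
    obtain ⟨i, b⟩ := l
    cases b with
    | true =>
      show p i (word (rp p A) L x) = p i (word p L x)
      rw [ih]
    | false =>
      show (p i).symm (word (rp p A) L x) = (p i).symm (word p L x)
      rw [ih]

private theorem isBorelPI_rp {X : Type} [MeasurableSpace X] {p : ℕ → PartialEquiv X X}
    (hp : ∀ i, IsBorelPI (p i)) {A : Set X} (hA : MeasurableSet A) (i : ℕ) :
    IsBorelPI (rp p A i) :=
  ⟨(hp i).source.inter hA, (hp i).target.inter ((hp i).meas_symm hA), (hp i).meas,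
    (hp i).meas_symm⟩

end BBM

theorem exists_kappa {X : Type} [MeasurableSpace X] [StandardBorelSpace X] {E : X → X → Prop}
    (hE : IsCBER E) :
    ∃ κ : X → ℕ → ℕ, Measurable κ ∧ ∀ (ψ : X → ℕ → ℕ) (A : Set X), Measurable ψ → MeasurableSet A →
      (∀ x ∈ A, ∀ y, E x y → y ∈ A) → (∀ x ∈ A, ∃ N, ∀ n, N ≤ n → κ x n ≤ ψ x n) →
      (∀ x y, E x y → ψ x = ψ y) →
      ∃ θ : GenSeq X, (∀ x y, θ.Rel x y ↔ x = y ∨ (x ∈ A ∧ E x y)) ∧ FiniteForward θ := by
  classical
  obtain ⟨φ, hφ⟩ := hE.exists_genSeq
  obtain ⟨ι, hι, hιi⟩ := exists_code X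
  obtain ⟨p, hpdef⟩ : ∃ p : ℕ → PartialEquiv X X, p = fun n => φ.pe (Nat.unpair n) := ⟨_, rfl⟩
  have hp : ∀ i, IsBorelPI (p i) := fun i => by rw [hpdef]; exact φ.isBorelPI_pe _
  have hpE : ∀ i, ∀ x ∈ (p i).source, E x (p i x) := by
    intro i x hx
    rw [hpdef] at hx ⊢
    exact (hφ _ _).1 ⟨_, GenSeq.via_pe hx⟩
  have hpS : ∀ x y, E x y → ∃ i, x ∈ (p i).source ∧ p i x = y := by
    intro x y h
    obtain ⟨r, hr⟩ := (hφ x y).2 h
    refine ⟨Nat.pair r.1 r.2, ?_⟩
    rw [hpdef]
    show x ∈ (φ.pe (Nat.unpair _)).source ∧ φ.pe (Nat.unpair _) x = y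
    rw [Nat.unpair_pair]
    exact hr.mem
  clear hpdef
  obtain ⟨e, he⟩ := exists_surjective_nat (List (ℕ × Bool))
  obtain ⟨κ, hκdef⟩ : ∃ κ : X → ℕ → ℕ, κ = fun x l => ∑ c ∈ Finset.range (l + 1),
    BBM.kk (word p (e c)) ι x := ⟨_, rfl⟩
  have hκ : Measurable κ := by
    rw [hκdef]
    exact measurable_pi_lambda _ fun l => Finset.measurable_sum _ fun c _ =>
      BBM.measurable_kk (isBorelPI_word hp (e c)).meas hι
  have hκle : ∀ c l x, c ≤ l → BBM.kk (word p (e c)) ι x ≤ κ x l := by
    intro c l x hcl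
    rw [hκdef]
    exact Finset.single_le_sum (f := fun c => BBM.kk (word p (e c)) ι x) (fun _ _ => Nat.zero_le _)
      (Finset.mem_range.2 (by omega))
  clear hκdef
  refine ⟨κ, hκ, fun ψ A hψ hA hAE h1 h2 => ?_⟩
  obtain ⟨θ, hθ⟩ := exists_enumerates (p := BBM.q (BBM.rp p A) κ ψ)
    (BBM.isBorelPI_q (BBM.isBorelPI_rp hp hA) hκ hψ)
  have hR : Equivalence (fun x y : X => x = y ∨ (x ∈ A ∧ E x y)) := by
    refine ⟨fun x => Or.inl rfl, ?_, ?_⟩
    · rintro x y (rfl | ⟨h3, h4⟩)
      · exact Or.inl rfl
      · exact Or.inr ⟨hAE x h3 y h4, hE.equiv.symm h4⟩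
    · rintro x y z (rfl | ⟨h3, h4⟩) h5
      · exact h5
      · rcases h5 with rfl | ⟨h5, h6⟩
        · exact Or.inr ⟨h3, h4⟩
        · exact Or.inr ⟨h3, hE.equiv.trans h4 h6⟩
  refine ⟨θ, fun x y => ⟨?_, ?_⟩, ?_⟩
  · rintro ⟨r, hr⟩
    obtain ⟨L, hL⟩ := hθ.exists_word r
    obtain ⟨h3, h4⟩ := hL x y hr
    rw [← h4]
    exact word_rel (p := BBM.q (BBM.rp p A) κ ψ) hR
      (fun t z hz => Or.inr ⟨hz.1.2, hpE t.1 z hz.1.1⟩) L h3
  · rintro (rfl | ⟨hxA, hxy⟩)
    · exact θ.rel_equiv.refl x
    obtain ⟨i, h3, h4⟩ := hpS x y hxy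
    obtain ⟨a₁, ha₁⟩ := h1 x hxA
    obtain ⟨a₂, ha₂⟩ := h1 y (hAE x hxA y hxy)
    have ha₃ := h2 x y hxy
    have h5 : x ∈ (word (BBM.q (BBM.rp p A) κ ψ) [((i, max a₁ a₂), true)]).source := by
      refine word_cons_mem.2 ⟨mem_univ _, ⟨h3, hxA⟩, fun n hn => ?_⟩
      show κ x n ≤ ψ x n ∧ κ (p i x) n ≤ ψ (p i x) n ∧ ψ x n = ψ (p i x) n
      rw [h4]
      exact ⟨ha₁ n ((le_max_left _ _).trans hn), ha₂ n ((le_max_right _ _).trans hn),
        congrFun ha₃ n⟩
    have h6 := hθ.rel_of_word h5
    have h7 : word (BBM.q (BBM.rp p A) κ ψ) [((i, max a₁ a₂), true)] x = y := h4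
    rwa [h7] at h6
  · intro n x
    by_contra hcon
    push Not at hcon
    obtain ⟨L, hL1, hL2⟩ := hθ.2 n
    have hdom : ∀ j, (θ.map n)^[j] x ∈ θ.dom n := fun j => (hcon j).1
    have hinj : ∀ i j, (θ.map n)^[i] x = (θ.map n)^[j] x → i = j := by
      intro i j hij
      rcases lt_trichotomy i j with h | h | h
      · exact absurd hij ((hcon j).2 i h)
      · exact h
      · exact absurd hij.symm ((hcon i).2 j h)
    obtain ⟨B, hB⟩ : ∃ B, ∀ l ∈ L, l.1.2 ≤ B := by
      clear hL1 hL2
      induction L with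
      | nil => exact ⟨0, by simp⟩
      | cons l L ih =>
        obtain ⟨B, hB⟩ := ih
        refine ⟨max B l.1.2, fun l' hl' => ?_⟩
        rcases List.mem_cons.1 hl' with rfl | h
        · exact le_max_right _ _
        · exact (hB l' h).trans (le_max_left _ _)
    obtain ⟨c, hc⟩ := he (L.map BBM.strip)
    have hstep : ∀ j, θ.map n ((θ.map n)^[j] x) = word p (e c) ((θ.map n)^[j] x) ∧
        (∀ m, B ≤ m → ψ (θ.map n ((θ.map n)^[j] x)) m = ψ ((θ.map n)^[j] x) m) ∧
        (L ≠ [] → ∀ m, B ≤ m → κ ((θ.map n)^[j] x) m ≤ ψ ((θ.map n)^[j] x) m) := by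
      intro j
      have h3 := hdom j
      rw [hL2 _ h3, hc]
      rw [hL1] at h3
      have h4 := BBM.word_q (BBM.rp p A) κ ψ B L hB h3
      rw [BBM.rp_word] at h4
      exact h4
    have hL : L ≠ [] := by
      rintro rfl
      have h3 := (hstep 0).1
      have h4 := hinj 1 0 (by
        show θ.map n x = x
        have h5 : x ∈ θ.dom n := hdom 0
        rw [hL2 x h5]
        rfl)
      omega
    have hit : ∀ j, (word p (e c))^[j] x = (θ.map n)^[j] x := by
      intro j
      induction j with
      | zero => rfl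
      | succ j ih =>
        rw [Function.iterate_succ_apply', Function.iterate_succ_apply', ih, (hstep j).1]
    have hψc : ∀ j m, B ≤ m → ψ ((θ.map n)^[j] x) m = ψ x m := by
      intro j m hm
      induction j with
      | zero => rfl
      | succ j ih => rw [Function.iterate_succ_apply', (hstep j).2.1 m hm, ih]
    obtain ⟨j, hj⟩ := BBM.kk_unbounded (word p (e c)) ι hιi x (fun i j h => by
      rw [hit, hit] at h
      exact hinj i j h) (ψ x (max B c) + 1)
    rw [hit] at hj
    have h3 := hκle c (max B c) ((θ.map n)^[j] x) (le_max_right _ _)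
    have h4 := (hstep j).2.2 hL (max B c) (le_max_left _ _)
    rw [hψc j (max B c) (le_max_left _ _)] at h4
    omega

end Pool.Agent.Work.MP_d78dd4_lc
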