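import Pool.Agent.Work.MP_d78dd4_lc.Label
import Pool.Agent.Work.MP_d78dd4_lc.BBU
import Mathlib.Probability.Kernel.Basic

set_option autoImplicit false

/-!
# Measure universality; the relation of all labelled actions whose labelled words have finite orbits
-/

namespace Pool.Agent.Work.MP_d78dd4_lc

open MeasureTheory ProbabilityTheory

/-- Measure universality: for every countable Borel equivalence relation `F` on `Y` and every Borel
probability measure on `Y` there is a Borel reduction to `E` on an `F`-invariant Borel set of measure one;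
even for all measures of a Borel family `K z`, `z ∈ Z` (a Markov kernel), at the same time: the parts which
belong to different `z` have unrelated images.  One measure: `Z` a point. -/
def MeasUniversal {X : Type} [MeasurableSpace X] (E : X → X → Prop) : Prop :=
  IsCBER E ∧ ∀ (Z Y : Type) [MeasurableSpace Z] [StandardBorelSpace Z] [MeasurableSpace Y]
    [StandardBorelSpace Y] (F : Y → Y → Prop), IsCBER F → ∀ (K : Kernel Z Y) [IsMarkovKernel K],
      ∃ (A : Set (Z × Y)) (f : Z × Y → X),
        MeasurableSet A ∧ (∀ z, K z {y | (z, y) ∈ A} = 1) ∧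
        (∀ z y y', (z, y) ∈ A → F y y' → (z, y') ∈ A) ∧ Measurable f ∧
        ∀ w ∈ A, ∀ w' ∈ A, ((w.1 = w'.1 ∧ F w.2 w'.2) ↔ E (f w) (f w'))

/-- The uniform version: for every generating sequence `ψ` and every Borel probability measure there is,
on an invariant Borel set of measure one, a uniform Borel reduction to the relation of `φ`. -/
def UnifMeasUniversal {X : Type} [MeasurableSpace X] (φ : GenSeq X) : Prop :=
  ∀ (Y : Type) [MeasurableSpace Y] [StandardBorelSpace Y] (ψ : GenSeq Y)
    (ν : Measure Y) [IsProbabilityMeasure ν], ∃ (A : Set Y) (f : Y → X) (u : ℕ × ℕ → ℕ × ℕ),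
      MeasurableSet A ∧ ν A = 1 ∧ (∀ x ∈ A, ∀ y, ψ.Rel x y → y ∈ A) ∧ Measurable f ∧
      (∀ x ∈ A, ∀ y ∈ A, (ψ.Rel x y ↔ φ.Rel (f x) (f y))) ∧
      ∀ q, ∀ x ∈ A, ∀ y ∈ A, ψ.Via q x y → φ.Via (u q) (f x) (f y)

/-- The labelled words of the action `T` with the labels `c` have finite forward orbits: a word `L` with
a prescribed list `s` of labels along its path (see `vlab`), iterated at any point, finally leaves its
domain or repeats a value. -/
def LabFin {X C : Type} [MeasurableSpace X] (T : Bool → X ≃ᵐ X) (c : X → C) : Prop :=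
  ∀ (L : List (Bool × Bool)) (s : List (C × C)) (x : X), ∃ j,
    vlab T c L ((act T L)^[j] x) ≠ s ∨ ∃ i < j, (act T L)^[i] x = (act T L)^[j] x

/-! ### Coding a label and a point of `2^ℕ` in a point of `2^ℕ` -/

/-- `n` times `true`, then `false`, then `u` -/
def enc (n : ℕ) (u : ℕ → Bool) : ℕ → Bool := fun k =>
  if k < n then true else if k = n then false else u (k - n - 1)

open Classical in
/-- the label which is coded in `v` -/
noncomputable def rd (v : ℕ → Bool) : ℕ := if h : ∃ k, v k = false then Nat.find h else 0

/-- the label of a point of the shift space -/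
noncomputable def labS (z : Sh) : ℕ := rd (z 1)

/-- The points `z` of the shift space such that at all points of the orbit of `z` the words of the shift
with labels (the label of `x` is coded in `x 1`) have finite forward orbits. -/
def StarSet : Set Sh :=
  {z | ∀ (γ : FreeGroup Bool) (L : List (Bool × Bool)) (s : List (ℕ × ℕ)), ∃ j,
    vlab shT labS L ((act shT L)^[j] (sh γ z)) ≠ s ∨
      ∃ i < j, (act shT L)^[i] (sh γ z) = (act shT L)^[j] (sh γ z)}

theorem rd_enc (n : ℕ) (u : ℕ → Bool) : rd (enc n u) = n := by
  classical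
  have h1 : enc n u n = false := by simp [enc]
  have h : ∃ k, enc n u k = false := ⟨n, h1⟩
  rw [rd, dif_pos h]
  refine le_antisymm (Nat.find_min' h h1) ?_
  by_contra hc
  push Not at hc
  have h2 := Nat.find_spec h
  rw [enc, if_pos hc] at h2
  exact absurd h2 (by simp)

theorem enc_inj {n : ℕ} {u v : ℕ → Bool} (h : enc n u = enc n v) : u = v := by
  funext k
  have h1 := congrFun h (n + 1 + k)
  have h2 : ¬ (n + 1 + k < n) := by omega
  have h3 : ¬ (n + 1 + k = n) := by omega
  have h4 : n + 1 + k - n - 1 = k := by omega
  simpa [enc, h2, h3, h4] using h1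

theorem measurable_enc : Measurable fun q : ℕ × (ℕ → Bool) => enc q.1 q.2 := by
  refine measurable_from_prod_countable_right fun n => measurable_pi_lambda _ fun k => ?_
  unfold enc
  by_cases h1 : k < n
  · simp only [h1, if_true]
    exact measurable_const
  · by_cases h2 : k = n
    · subst h2
      simp
    · simp only [h1, h2, if_false]
      exact measurable_pi_apply _

theorem measurable_rd : Measurable rd := by
  classical
  have hk : ∀ k, MeasurableSet {v : ℕ → Bool | v k = false} := fun k =>
    measurableSet_eq_fun (measurable_pi_apply k) measurable_const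
  have hS : MeasurableSet {v : ℕ → Bool | ∃ k, v k = false} := by
    have h1 : {v : ℕ → Bool | ∃ k, v k = false} = ⋃ k, {v | v k = false} := by
      ext v
      simp
    rw [h1]
    exact MeasurableSet.iUnion hk
  have h2 : ∀ v : ℕ → Bool, ∃ k, v k = false ∨ ¬ ∃ m, v m = false := by
    intro v
    by_cases h : ∃ m, v m = false
    · obtain ⟨k, hk⟩ := h
      exact ⟨k, Or.inl hk⟩
    · exact ⟨0, Or.inr h⟩
  have h3 : rd = fun v => Nat.find (h2 v) := by
    funext v
    by_cases h : ∃ m, v m = false
    · rw [rd, dif_pos h]
      refine (Nat.find_eq_iff _).2 ⟨?_, fun m hm => ?_⟩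
      · rcases Nat.find_spec (h2 v) with h4 | h4
        · exact h4
        · exact absurd h h4
      · intro h4
        exact Nat.find_min (h2 v) hm (Or.inl h4)
    · rw [rd, dif_neg h]
      exact ((Nat.find_eq_zero _).2 (Or.inr h)).symm
  rw [h3]
  refine measurable_find h2 fun k => ?_
  have h4 : {v : ℕ → Bool | v k = false ∨ ¬ ∃ m, v m = false} =
      {v | v k = false} ∪ {v | ∃ m, v m = false}ᶜ := by
    ext v
    rfl
  rw [h4]
  exact (hk k).union hS.compl

theorem measurable_labS : Measurable labS := measurable_rd.comp (measurable_pi_apply 1)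

theorem measurableSet_star : MeasurableSet StarSet := by
  have h1 : StarSet = ⋂ γ : FreeGroup Bool, ⋂ L : List (Bool × Bool), ⋂ s : List (ℕ × ℕ), ⋃ j : ℕ,
      ({z | vlab shT labS L ((act shT L)^[j] (sh γ z)) = s}ᶜ ∪
        ⋃ i : ℕ, ⋃ _ : i < j, {z | (act shT L)^[i] (sh γ z) = (act shT L)^[j] (sh γ z)}) := by
    ext z
    simp only [StarSet, Set.mem_ofPred_eq, Set.mem_iInter, Set.mem_iUnion, Set.mem_union,
      Set.mem_compl_iff, exists_prop, ne_eq]
  rw [h1]
  refine MeasurableSet.iInter fun γ => MeasurableSet.iInter fun L => MeasurableSet.iInter fun s =>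
    MeasurableSet.iUnion fun j => ?_
  have h2 : ∀ i, Measurable fun z => (act shT L)^[i] (sh γ z) := fun i =>
    ((measurable_act shT L).iterate i).comp (measurable_sh γ)
  refine MeasurableSet.union ?_ (MeasurableSet.iUnion fun i => MeasurableSet.iUnion fun _ =>
    measurableSet_eq_fun (h2 i) (h2 j))
  exact ((h2 j) (measurableSet_vlab shT measurable_labS L s)).compl

theorem sh_mem_star {z : Sh} (hz : z ∈ StarSet) (δ : FreeGroup Bool) : sh δ z ∈ StarSet := by
  intro γ L s
  have h := hz (γ * δ) L s
  rw [sh_mul] at h
  exact h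

/-- the standard Borel space of the points of `StarSet` -/
abbrev Star : Type := StarSet

instance instStar : StandardBorelSpace Star := measurableSet_star.standardBorel

/-- the shift on `Star` -/
noncomputable def starT (i : Bool) : Star ≃ᵐ Star where
  toFun z := ⟨sh (FreeGroup.of i) z.1, sh_mem_star z.2 _⟩
  invFun z := ⟨sh (FreeGroup.of i)⁻¹ z.1, sh_mem_star z.2 _⟩
  left_inv z := Subtype.ext (sh_inv_sh _ _)
  right_inv z := Subtype.ext (sh_sh_inv _ _)
  measurable_toFun := ((measurable_sh _).comp measurable_subtype_coe).subtype_mk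
  measurable_invFun := ((measurable_sh _).comp measurable_subtype_coe).subtype_mk

/-- the label of a point of `Star` -/
noncomputable def starC (z : Star) : ℕ := labS z.1

end Pool.Agent.Work.MP_d78dd4_lc
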