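import Pool.Agent.Work.MP_d78dd4_lc.MU.Defs

set_option autoImplicit false

/-!
# Every labelled action with the property `LabFin` embeds in `Star` (module Emb, M)

Proof.
(1) `labFin_star`.  For `z : Star` and a word `L`: `(act starT L z).1 = act shT L z.1` (induction on `L`), hence
`((act starT L)^[j] z).1 = (act shT L)^[j] z.1` and `vlab starT starC L z = vlab shT labS L z.1` (induction on
`L`; `starC z = labS z.1`).  Now `z.2` at `γ = 1` (`sh_one`) gives the claim (`Subtype.ext`).

(2) `exists_emb`.  Let `ι : Y → ℕ → Bool` be Borel and injective (`exists_code Y` in `../Tower.lean`).  Let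
`ρ : FreeGroup Bool →* Equiv.Perm Y := FreeGroup.lift fun i => (T i).toEquiv`.  Facts: `act T L y =
ρ (FreeGroup.mk L) y` (induction on `L` as in `act_shT`, or `FreeGroup.lift_mk`), so `y ↦ ρ γ y` is Borel
(`γ = mk γ.toWord`, `measurable_act`).  Put
  `f₀ y : Sh := fun g => enc (c (ρ g⁻¹ y)) (ι (ρ g⁻¹ y))`.
`f₀` is Borel (`measurable_pi_lambda`, `measurable_enc.comp`), equivariant: `sh γ (f₀ y) = f₀ (ρ γ y)` (at `h`:
`sh γ (f₀ y) h = f₀ y (γ⁻¹ * h)` and `(γ⁻¹ * h)⁻¹ = h⁻¹ * γ`), hence `act shT L (f₀ y) = f₀ (act T L y)` (by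
`act_shT` in `../Label.lean` and `act T L y = ρ (mk L) y`), `labS (f₀ y) = c y` (`rd_enc`; `f₀ y 1 = enc (c y) (ι y)`),
injective (`f₀ y 1 = f₀ y' 1`: apply `rd` to get `c y = c y'`, then `enc_inj`, then injectivity of `ι`).
Therefore `vlab shT labS L (f₀ y) = vlab T c L y` and `(act shT L)^[j] (f₀ y) = f₀ ((act T L)^[j] y)`.
`f₀ y ∈ StarSet`: given `γ, L, s`, take `j` from `h L s (ρ γ y)` and translate with these formulas.
`f y := ⟨f₀ y, _⟩`.  Reduction: `OrbT T y y' → OrbT starT (f y) (f y')` by `act starT L (f y) = f (act T L y)`;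
conversely `act starT L (f y) = f y'` gives `f₀ (act T L y) = f₀ y'`, so `act T L y = y'`.
-/

namespace Pool.Agent.Work.MP_d78dd4_lc

private theorem act_star (L : List (Bool × Bool)) (z : Star) :
    (act starT L z).1 = act shT L z.1 := by
  induction L with
  | nil => rfl
  | cons l L ih =>
    obtain ⟨i, b⟩ := l
    cases b
    · show sh (FreeGroup.of i)⁻¹ (act starT L z).1 = sh (FreeGroup.of i)⁻¹ (act shT L z.1)
      rw [ih]
    · show sh (FreeGroup.of i) (act starT L z).1 = sh (FreeGroup.of i) (act shT L z.1)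
      rw [ih]

private theorem iter_star (L : List (Bool × Bool)) (j : ℕ) (z : Star) :
    ((act starT L)^[j] z).1 = (act shT L)^[j] z.1 := by
  induction j with
  | zero => rfl
  | succ j ih => rw [Function.iterate_succ_apply', Function.iterate_succ_apply', act_star, ih]

private theorem vlab_star (L : List (Bool × Bool)) (z : Star) :
    vlab starT starC L z = vlab shT labS L z.1 := by
  induction L with
  | nil => rfl
  | cons l L ih =>
    show (labS (act starT L z).1, labS (act starT (l :: L) z).1) :: vlab starT starC L z =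
      (labS (act shT L z.1), labS (act shT (l :: L) z.1)) :: vlab shT labS L z.1
    rw [ih, act_star, act_star]

theorem labFin_star : LabFin starT starC := by
  intro L s z
  obtain ⟨j, hj⟩ := z.2 1 L s
  rw [sh_one] at hj
  refine ⟨j, ?_⟩
  rcases hj with hj | ⟨i, hi, hj⟩
  · left
    rw [vlab_star, iter_star]
    exact hj
  · right
    refine ⟨i, hi, Subtype.ext ?_⟩
    rw [iter_star, iter_star]
    exact hj

/-- the action of the free group given by `T` -/
private def rho {Y : Type} [MeasurableSpace Y] (T : Bool → Y ≃ᵐ Y) :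
    FreeGroup Bool →* Equiv.Perm Y := FreeGroup.lift fun i => (T i).toEquiv

private theorem act_rho {Y : Type} [MeasurableSpace Y] (T : Bool → Y ≃ᵐ Y)
    (L : List (Bool × Bool)) (y : Y) : act T L y = rho T (FreeGroup.mk L) y := by
  induction L with
  | nil =>
    have h : (FreeGroup.mk ([] : List (Bool × Bool))) = 1 := rfl
    rw [h, map_one]
    rfl
  | cons l L ih =>
    obtain ⟨i, b⟩ := l
    have h1 : FreeGroup.mk ((i, b) :: L) = FreeGroup.mk [(i, b)] * FreeGroup.mk L := by
      rw [FreeGroup.mul_mk]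
      rfl
    rw [h1, map_mul, Equiv.Perm.mul_apply, ← ih]
    cases b
    · have h2 : FreeGroup.mk [(i, false)] = (FreeGroup.of i)⁻¹ := by
        rw [FreeGroup.of, FreeGroup.inv_mk]
        rfl
      rw [h2, map_inv]
      unfold rho
      rw [FreeGroup.lift_apply_of]
      rfl
    · have h2 : FreeGroup.mk [(i, true)] = FreeGroup.of i := rfl
      rw [h2]
      unfold rho
      rw [FreeGroup.lift_apply_of]
      rfl

private theorem measurable_rho {Y : Type} [MeasurableSpace Y] (T : Bool → Y ≃ᵐ Y)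
    (γ : FreeGroup Bool) : Measurable fun y => rho T γ y := by
  have h : (fun y => rho T γ y) = act T γ.toWord := by
    funext y
    rw [act_rho, FreeGroup.mk_toWord]
  rw [h]
  exact measurable_act T _

/-- the equivariant map to the shift space -/
private noncomputable def f0 {Y : Type} [MeasurableSpace Y] (T : Bool → Y ≃ᵐ Y) (c : Y → ℕ)
    (ι : Y → ℕ → Bool) (y : Y) : Sh := fun g => enc (c (rho T g⁻¹ y)) (ι (rho T g⁻¹ y))

private theorem measurable_f0 {Y : Type} [MeasurableSpace Y] (T : Bool → Y ≃ᵐ Y) {c : Y → ℕ}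
    (hc : Measurable c) {ι : Y → ℕ → Bool} (hι : Measurable ι) : Measurable (f0 T c ι) := by
  refine measurable_pi_lambda _ fun g => ?_
  exact measurable_enc.comp ((hc.comp (measurable_rho T g⁻¹)).prodMk
    (hι.comp (measurable_rho T g⁻¹)))

private theorem sh_f0 {Y : Type} [MeasurableSpace Y] (T : Bool → Y ≃ᵐ Y) (c : Y → ℕ)
    (ι : Y → ℕ → Bool) (γ : FreeGroup Bool) (y : Y) :
    sh γ (f0 T c ι y) = f0 T c ι (rho T γ y) := by
  funext h
  show enc (c (rho T (γ⁻¹ * h)⁻¹ y)) (ι (rho T (γ⁻¹ * h)⁻¹ y)) =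
    enc (c (rho T h⁻¹ (rho T γ y))) (ι (rho T h⁻¹ (rho T γ y)))
  have h1 : (γ⁻¹ * h)⁻¹ = h⁻¹ * γ := by group
  rw [h1, map_mul, Equiv.Perm.mul_apply]

private theorem act_f0 {Y : Type} [MeasurableSpace Y] (T : Bool → Y ≃ᵐ Y) (c : Y → ℕ)
    (ι : Y → ℕ → Bool) (L : List (Bool × Bool)) (y : Y) :
    act shT L (f0 T c ι y) = f0 T c ι (act T L y) := by
  rw [act_shT, sh_f0, act_rho]

private theorem f0_one {Y : Type} [MeasurableSpace Y] (T : Bool → Y ≃ᵐ Y) (c : Y → ℕ)
    (ι : Y → ℕ → Bool) (y : Y) : f0 T c ι y 1 = enc (c y) (ι y) := by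
  unfold f0
  rw [inv_one, map_one]
  rfl

private theorem lab_f0 {Y : Type} [MeasurableSpace Y] (T : Bool → Y ≃ᵐ Y) (c : Y → ℕ)
    (ι : Y → ℕ → Bool) (y : Y) : labS (f0 T c ι y) = c y := by
  unfold labS
  rw [f0_one, rd_enc]

private theorem f0_inj {Y : Type} [MeasurableSpace Y] (T : Bool → Y ≃ᵐ Y) (c : Y → ℕ)
    {ι : Y → ℕ → Bool} (hι : Function.Injective ι) : Function.Injective (f0 T c ι) := by
  intro y y' h
  have h1 := congrFun h 1
  rw [f0_one, f0_one] at h1
  have h2 : c y = c y' := by rw [← rd_enc (c y) (ι y), h1, rd_enc]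
  rw [h2] at h1
  exact hι (enc_inj h1)

private theorem iter_f0 {Y : Type} [MeasurableSpace Y] (T : Bool → Y ≃ᵐ Y) (c : Y → ℕ)
    (ι : Y → ℕ → Bool) (L : List (Bool × Bool)) (j : ℕ) (y : Y) :
    (act shT L)^[j] (f0 T c ι y) = f0 T c ι ((act T L)^[j] y) := by
  induction j with
  | zero => rfl
  | succ j ih => rw [Function.iterate_succ_apply', Function.iterate_succ_apply', ih, act_f0]

private theorem vlab_f0 {Y : Type} [MeasurableSpace Y] (T : Bool → Y ≃ᵐ Y) (c : Y → ℕ)
    (ι : Y → ℕ → Bool) (L : List (Bool × Bool)) (y : Y) :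
    vlab shT labS L (f0 T c ι y) = vlab T c L y := by
  induction L with
  | nil => rfl
  | cons l L ih =>
    show (labS (act shT L (f0 T c ι y)), labS (act shT (l :: L) (f0 T c ι y))) ::
        vlab shT labS L (f0 T c ι y) =
      (c (act T L y), c (act T (l :: L) y)) :: vlab T c L y
    rw [ih, act_f0, act_f0, lab_f0, lab_f0]

theorem exists_emb {Y : Type} [MeasurableSpace Y] [StandardBorelSpace Y] (T : Bool → Y ≃ᵐ Y)
    {c : Y → ℕ} (hc : Measurable c) (h : LabFin T c) :
    ∃ f : Y → Star, BorelRed (OrbT T) (OrbT starT) f := by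
  obtain ⟨ι, hι, hinj⟩ := exists_code Y
  have hmem : ∀ y, f0 T c ι y ∈ StarSet := by
    intro y γ L s
    obtain ⟨j, hj⟩ := h L s (rho T γ y)
    refine ⟨j, ?_⟩
    rw [sh_f0, iter_f0, vlab_f0]
    rcases hj with hj | ⟨i, hi, hj⟩
    · exact Or.inl hj
    · right
      refine ⟨i, hi, ?_⟩
      rw [iter_f0, hj]
  refine ⟨fun y => ⟨f0 T c ι y, hmem y⟩, (measurable_f0 T hc hι).subtype_mk, fun y y' => ?_⟩
  constructor
  · rintro ⟨L, rfl⟩
    refine ⟨L, Subtype.ext ?_⟩
    rw [act_star]
    exact act_f0 T c ι L y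
  · rintro ⟨L, hL⟩
    refine ⟨L, f0_inj T c hinj ?_⟩
    have h1 := congrArg Subtype.val hL
    rw [act_star] at h1
    rw [← act_f0]
    exact h1

end Pool.Agent.Work.MP_d78dd4_lc
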