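import Pool.Agent.Work.MP_d78dd4_lc.MU.Defs

set_option autoImplicit false

/-!
# Almost every class is bounded by one function (module Ker, M)

Proof.
`isCBER_prod`: equivalence, Borel (preimages under Borel maps; equality of `Z` is Borel), the class of `(z, y)` is
the image of the countable class of `y` under `y' ↦ (z, y')`.

`exists_bound`.  `hF.exists_genSeq` gives `ψ : GenSeq Y` with `ψ.Rel y y' ↔ F y y'`.  For `n : ℕ` let
`m n y := if y ∈ (ψ.pe (Nat.unpair n)).source then ψ.pe (Nat.unpair n) y else y` (see `GenSeq.pe`,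
`GenSeq.isBorelPI_pe` in `../Tower.lean`); the `m n` are Borel maps `Y → Y` with `F y (m n y)` for all `y`, and
`F y y'` implies `y' = m n y` for some `n` (`Via.mem`).  Let `κ' z y k := ∑ n in range (k+1), κ (z, m n y) k` (Borel in
`(z, y)`).
For all `z, k`: the sets `{y | M < κ' z y k}`, `M : ℕ`, decrease to `∅`, so their `K z`-measures tend to `0`
(`tendsto_measure_iInter_atTop` or `MeasureTheory.tendsto_measure_iInter_..`; `K z` is finite), so there is `M` with
`K z {y | M < κ' z y k} ≤ (1/2)^k` (in `ℝ≥0∞`; e.g. `≤ 2⁻¹ ^ k`).  Let `g z k` be the least such `M`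
(`Nat.find`).  `g` is Borel: `measurable_pi_lambda`, `measurable_find` and for each `M` the set
`{z | K z {y | M < κ' z y k} ≤ 2⁻¹ ^ k}` is Borel by `ProbabilityTheory.Kernel.measurable_kernel_prodMk_left`
(`z ↦ K z {y | (z, y) ∈ t}` is measurable for Borel `t`) and `measurableSet_le`.
For fixed `z`: `∑ k, K z {y | g z k < κ' z y k} ≤ ∑ k, 2⁻¹^k < ∞` (the specification of `Nat.find`), so by
Borel-Cantelli (`MeasureTheory.measure_limsup_atTop_eq_zero` / `ae_eventually_notMem`) for `K z`-almost every `y` there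
is `N` with `κ' z y k ≤ g z k` for all `k ≥ N`.  For such `y` and `y'` with `F y y'`, `y' = m n y`, we have for
`k ≥ max n N`: `κ (z, y') k ≤ κ' z y k ≤ g z k` (a term of the sum).  This gives the last claim (the set has
measure 1 because it is Borel, see below, or because `K z` of a set containing a conull set is 1: `prob_compl_eq_zero_iff`,
`mem_ae_iff`, or `measure_eq_one_iff`...).
Measurability of the set `B = {w | ∀ y, F w.2 y → ∃ N, ∀ n ≥ N, κ (w.1, y) n ≤ g w.1 n}`: it equals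
`⋂ n, {w | ∃ N, ∀ k ≥ N, κ (w.1, m n w.2) k ≤ g w.1 k}`, a countable combination of Borel sets.
-/

namespace Pool.Agent.Work.MP_d78dd4_lc

open MeasureTheory ProbabilityTheory

private theorem exists_maps {Y : Type} [MeasurableSpace Y] [StandardBorelSpace Y] {F : Y → Y → Prop}
    (hF : IsCBER F) : ∃ m : ℕ → Y → Y, (∀ n, Measurable (m n)) ∧ (∀ n y, F y (m n y)) ∧
      ∀ y y', F y y' → ∃ n, y' = m n y := by
  classical
  obtain ⟨ψ, hψ⟩ := hF.exists_genSeq
  refine ⟨fun n y => if y ∈ (ψ.pe (Nat.unpair n)).source then ψ.pe (Nat.unpair n) y else y,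
    ?_, ?_, ?_⟩
  · intro n
    exact Measurable.ite (ψ.isBorelPI_pe _).source (ψ.isBorelPI_pe _).meas measurable_id
  · intro n y
    by_cases h : y ∈ (ψ.pe (Nat.unpair n)).source
    · simp only [h, if_true]
      exact (hψ _ _).1 ⟨_, GenSeq.via_pe h⟩
    · simp only [h, if_false]
      exact hF.equiv.refl y
  · intro y y' h
    obtain ⟨q, hq⟩ := (hψ _ _).2 h
    obtain ⟨h1, h2⟩ := hq.mem
    refine ⟨Nat.pair q.1 q.2, ?_⟩
    simp only [Nat.unpair_pair]
    rw [if_pos h1]
    exact h2.symm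

theorem isCBER_prod {Z Y : Type} [MeasurableSpace Z] [StandardBorelSpace Z] [MeasurableSpace Y]
    [StandardBorelSpace Y] {F : Y → Y → Prop} (hF : IsCBER F) :
    IsCBER fun w w' : Z × Y => w.1 = w'.1 ∧ F w.2 w'.2 := by
  refine ⟨⟨fun w => ⟨rfl, hF.equiv.refl _⟩, fun h => ⟨h.1.symm, hF.equiv.symm h.2⟩,
    fun h h' => ⟨h.1.trans h'.1, hF.equiv.trans h.2 h'.2⟩⟩, ?_, ?_⟩
  · have h1 : MeasurableSet {q : (Z × Y) × (Z × Y) | q.1.1 = q.2.1} :=
      measurableSet_eq_fun (measurable_fst.comp measurable_fst) (measurable_fst.comp measurable_snd)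
    have h2 : Measurable fun q : (Z × Y) × (Z × Y) => (q.1.2, q.2.2) :=
      (measurable_snd.comp measurable_fst).prodMk (measurable_snd.comp measurable_snd)
    exact h1.inter (h2 hF.borel)
  · intro w
    refine ((hF.countable w.2).image fun y => (w.1, y)).mono ?_
    rintro ⟨z, y⟩ ⟨h1, h2⟩
    exact ⟨y, h2, Prod.ext h1 rfl⟩

theorem exists_bound {Z Y : Type} [MeasurableSpace Z] [StandardBorelSpace Z] [MeasurableSpace Y]
    [StandardBorelSpace Y] (K : Kernel Z Y) [IsMarkovKernel K] {F : Y → Y → Prop} (hF : IsCBER F)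
    (κ : Z × Y → ℕ → ℕ) (hκ : Measurable κ) :
    ∃ g : Z → ℕ → ℕ, Measurable g ∧
      MeasurableSet {w : Z × Y | ∀ y, F w.2 y → ∃ N, ∀ n, N ≤ n → κ (w.1, y) n ≤ g w.1 n} ∧
      ∀ z, K z {y | ∀ y', F y y' → ∃ N, ∀ n, N ≤ n → κ (z, y') n ≤ g z n} = 1 := by
  classical
  obtain ⟨m, hm, hmF, hFm⟩ := exists_maps hF
  have hκm : ∀ n k, Measurable fun w : Z × Y => κ (w.1, m n w.2) k := fun n k =>
    (measurable_pi_apply k).comp (hκ.comp (measurable_fst.prodMk ((hm n).comp measurable_snd)))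
  obtain ⟨S, hSdef⟩ : ∃ S : Z × Y → ℕ → ℕ,
    S = fun w k => ∑ n ∈ Finset.range (k + 1), κ (w.1, m n w.2) k := ⟨_, rfl⟩
  have hS : ∀ k, Measurable fun w => S w k := by
    intro k
    rw [hSdef]
    exact Finset.measurable_fun_sum _ fun n _ => hκm n k
  have hSle : ∀ w k n, n ≤ k → κ (w.1, m n w.2) k ≤ S w k := by
    intro w k n hn
    rw [hSdef]
    exact Finset.single_le_sum (f := fun n => κ (w.1, m n w.2) k) (fun _ _ => Nat.zero_le _)
      (Finset.mem_range.2 (Nat.lt_succ_of_le hn))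
  clear hSdef
  have hset : ∀ k M, MeasurableSet {w : Z × Y | M < S w k} := fun k M =>
    measurableSet_lt measurable_const (hS k)
  have hset' : ∀ z k M, MeasurableSet {y : Y | M < S (z, y) k} := fun z k M =>
    measurable_prodMk_left (hset k M)
  have hex : ∀ k z, ∃ M : ℕ, K z {y | M < S (z, y) k} ≤ (2⁻¹ : ENNReal) ^ k := by
    intro k z
    have h1 := tendsto_measure_iInter_atTop (μ := K z) (s := fun M : ℕ => {y | M < S (z, y) k})
      (fun M => (hset' z k M).nullMeasurableSet)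
      (fun M M' hMM' y hy => lt_of_le_of_lt hMM' hy)
      ⟨0, measure_ne_top _ _⟩
    have h2 : (⋂ M : ℕ, {y | M < S (z, y) k}) = ∅ := by
      ext y
      simp only [Set.mem_iInter, Set.mem_ofPred_eq, Set.mem_empty_iff_false, iff_false, not_forall]
      exact ⟨S (z, y) k, lt_irrefl _⟩
    rw [h2, measure_empty] at h1
    have h3 : (0 : ENNReal) < (2⁻¹ : ENNReal) ^ k :=
      ENNReal.pow_pos (by simp) k
    obtain ⟨M, hM⟩ := ((tendsto_order.1 h1).2 _ h3).exists
    exact ⟨M, hM.le⟩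
  have hmeasK : ∀ k M, MeasurableSet {z | K z {y | M < S (z, y) k} ≤ (2⁻¹ : ENNReal) ^ k} := by
    intro k M
    exact measurableSet_le (ProbabilityTheory.Kernel.measurable_kernel_prodMk_left (κ := K) (hset k M))
      measurable_const
  obtain ⟨g, hgm, hg⟩ : ∃ g : Z → ℕ → ℕ, Measurable g ∧
      ∀ z k, K z {y | g z k < S (z, y) k} ≤ (2⁻¹ : ENNReal) ^ k :=
    ⟨fun z k => Nat.find (hex k z),
      measurable_pi_lambda _ fun k => measurable_find (hex k) (hmeasK k),
      fun z k => Nat.find_spec (hex k z)⟩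
  have hB : {w : Z × Y | ∀ y, F w.2 y → ∃ N, ∀ n, N ≤ n → κ (w.1, y) n ≤ g w.1 n} =
      ⋂ n, ⋃ N, ⋂ k, ⋂ _ : N ≤ k, {w : Z × Y | κ (w.1, m n w.2) k ≤ g w.1 k} := by
    ext w
    simp only [Set.mem_ofPred_eq, Set.mem_iInter, Set.mem_iUnion]
    constructor
    · intro h n
      exact h _ (hmF n w.2)
    · intro h y hy
      obtain ⟨n, rfl⟩ := hFm _ _ hy
      exact h n
  have hBm : MeasurableSet
      {w : Z × Y | ∀ y, F w.2 y → ∃ N, ∀ n, N ≤ n → κ (w.1, y) n ≤ g w.1 n} := by
    rw [hB]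
    refine MeasurableSet.iInter fun n => MeasurableSet.iUnion fun N => MeasurableSet.iInter fun k =>
      MeasurableSet.iInter fun _ => ?_
    exact measurableSet_le (hκm n k) ((measurable_pi_apply k).comp (hgm.comp measurable_fst))
  refine ⟨g, hgm, hBm, fun z => ?_⟩
  have hsum : (∑' k, K z {y | g z k < S (z, y) k}) ≠ ⊤ := by
    refine ne_top_of_le_ne_top ?_ (ENNReal.tsum_le_tsum fun k => hg z k)
    rw [ENNReal.tsum_geometric]
    simp
  have hae := ae_eventually_notMem hsum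
  have hCm : MeasurableSet {y | ∀ y', F y y' → ∃ N, ∀ n, N ≤ n → κ (z, y') n ≤ g z n} :=
    measurable_prodMk_left hBm
  refine (mem_ae_iff_prob_eq_one hCm).1 ?_
  filter_upwards [hae] with y hy y' hy'
  obtain ⟨n, rfl⟩ := hFm _ _ hy'
  obtain ⟨N, hN⟩ := Filter.eventually_atTop.1 hy
  refine ⟨max n N, fun k hk => ?_⟩
  have h1 := hN k (le_trans (le_max_right _ _) hk)
  have h2 : S (z, y) k ≤ g z k := not_lt.1 h1
  exact (hSle (z, y) k n (le_trans (le_max_left _ _) hk)).trans h2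

end Pool.Agent.Work.MP_d78dd4_lc
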