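import Pool.Agent.Work.MP_d78dd4_lc.MU.Defs

set_option autoImplicit false

/-!
# Finite forward orbits exclude uniform reductions almost everywhere (module NotUnif, M)

Proof.  Suppose `UnifMeasUniversal φ` and apply it to `Y = Sh`, `ψ = Cat.shSeq` (see `../Crit.lean`) and the
Bernoulli measure `Cat.bern` (see `../Meas.lean` for its exact name and namespace; it is a probability measure):
we get `A, f, u₀`.  As in `exists_freeAction` (`../Crit.lean`) but on `A`: for every `γ` there is a pair `u γ` with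
`φ.Via (u γ) (f x) (f (sh γ x))` for all `x ∈ A` (`sh γ x ∈ A` by invariance of `A`, since `shSeq.Rel x (sh γ x)`,
`shSeq_rel`).
Let `f' : Sh → X ⊕ Sh`, `f' x = Sum.inl (f x)` for `x ∈ A` and `Sum.inr x` for `x ∉ A` (Borel).  The hypotheses of
`Cat.ae_free` hold for `f'`: if `f' x = f' y` then either `x, y ∈ A` and `f x = f y`, so `φ.Rel (f x) (f y)`
(reflexivity), so `shSeq.Rel x y`, so `Orb x y`; or `x = y`.  And `f' (sh γ x) = f' (sh γ y)`: in the first case
`sh γ x, sh γ y ∈ A` and `f (sh γ x) = φ.map (u γ).1 (f x) = φ.map (u γ).1 (f y) = f (sh γ y)`; in the second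
case trivial.
So for every `γ ≠ 1`, `f' (sh γ x) ≠ f' x` for almost every `x`; `FreeGroup Bool` is countable and `A` is conull
(`bern A = 1`), so there is `x ∈ A` with `f (sh γ x) ≠ f x` for all `γ ≠ 1`.
Let `w = FreeGroup.of true`, `m = (u w).1`.  By induction `(φ.map m)^[k] (f x) = f (sh (w ^ k) x)` (`sh (w^k) x ∈ A`)
and this point is in `φ.dom m`.  `FiniteForward φ` at `m`, `f x` gives `i < j` with
`f (sh (w^i) x) = f (sh (w^j) x)`; applying the congruence for `(w^i)⁻¹` (both points in `A`) we get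
`f x = f (sh (w^(j-i)) x)`, and `w^(j-i) ≠ 1` (as at the end of `not_uniformlyUniversal`), a contradiction.
-/

namespace Pool.Agent.Work.MP_d78dd4_lc

open Cat Set Filter MeasureTheory in
theorem not_unifMeasUniversal {X : Type} [MeasurableSpace X] [StandardBorelSpace X] (φ : GenSeq X)
    (h : FiniteForward φ) : ¬ UnifMeasUniversal φ := by
  intro hU
  obtain ⟨A, f, u₀, hAm, hA1, hAinv, hfm, hfr, hu₀⟩ := hU Sh shSeq bern
  have hAs : ∀ γ, ∀ x ∈ A, sh γ x ∈ A := fun γ x hx => hAinv x hx _ ((shSeq_rel _ _).2 ⟨γ, rfl⟩)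
  have hAs' : ∀ γ x, sh γ x ∈ A → x ∈ A := by
    intro γ x hx
    have h1 := hAs γ⁻¹ _ hx
    rwa [sh_sh, inv_mul_cancel, sh_one] at h1
  have hu1 : ∀ γ, ∃ q : ℕ × ℕ, ∀ x ∈ A, φ.Via q (f x) (f (sh γ x)) := by
    intro γ
    obtain ⟨m, hm⟩ := en_surj γ
    obtain ⟨n, hn⟩ := en_surj γ⁻¹
    refine ⟨u₀ (m, n), fun x hx => hu₀ (m, n) x hx (sh γ x) (hAs γ x hx)
      ⟨⟨mem_univ _, ?_⟩, ⟨mem_univ _, ?_⟩⟩⟩
    · show sh (en m) x = _
      rw [hm]
    · show sh (en n) (sh γ x) = x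
      rw [hn, sh_sh, inv_mul_cancel, sh_one]
  choose u hu using hu1
  have hcong : ∀ γ, ∀ x ∈ A, ∀ y ∈ A, f x = f y → f (sh γ x) = f (sh γ y) := by
    intro γ x hx y hy hxy
    have h1 := (hu γ x hx).1.2
    have h2 := (hu γ y hy).1.2
    rw [← h1, ← h2, hxy]
  have horb : ∀ x ∈ A, ∀ y ∈ A, f x = f y → Orb x y := by
    intro x hx y hy hxy
    rw [← shSeq_rel, hfr x hx y hy, ← hxy, ← hfr x hx x hx, shSeq_rel]
    exact ⟨1, sh_one x⟩
  classical
  set f' : Sh → X × (Sh × Bool) := fun x =>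
    (f x, if x ∈ A then (fun _ _ => false, true) else (x, false)) with hf'
  have hf'm : Measurable f' :=
    hfm.prodMk (Measurable.ite hAm measurable_const (measurable_id.prodMk measurable_const))
  have hfA : ∀ x y, f' x = f' y → (x ∈ A ↔ y ∈ A) := by
    intro x y hxy
    have h1 := congrArg (fun q => q.2.2) hxy
    by_cases hx : x ∈ A
    · by_cases hy : y ∈ A
      · exact ⟨fun _ => hy, fun _ => hx⟩
      · simp [hf', hx, hy] at h1
    · by_cases hy : y ∈ A
      · simp [hf', hx, hy] at h1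
      · exact ⟨fun h => absurd h hx, fun h => absurd h hy⟩
  have hf1 : ∀ x y, f' x = f' y → f x = f y := fun x y hxy => congrArg Prod.fst hxy
  have hf2 : ∀ x y, x ∉ A → f' x = f' y → x = y := by
    intro x y hx hxy
    have hy : y ∉ A := fun h => hx ((hfA x y hxy).2 h)
    have h1 := congrArg (fun q => q.2.1) hxy
    simpa [hf', hx, hy] using h1
  have hf3 : ∀ x ∈ A, ∀ y ∈ A, f x = f y → f' x = f' y := by
    intro x hx y hy hxy
    simp [hf', hx, hy, hxy]
  have horb' : ∀ x y, f' x = f' y → Orb x y := by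
    intro x y hxy
    by_cases hx : x ∈ A
    · exact horb x hx y ((hfA x y hxy).1 hx) (hf1 x y hxy)
    · rw [hf2 x y hx hxy]
      exact ⟨1, sh_one y⟩
  have hcong' : ∀ γ x y, f' x = f' y → f' (sh γ x) = f' (sh γ y) := by
    intro γ x y hxy
    by_cases hx : x ∈ A
    · have hy := (hfA x y hxy).1 hx
      exact hf3 _ (hAs γ x hx) _ (hAs γ y hy) (hcong γ x hx y hy (hf1 x y hxy))
    · rw [hf2 x y hx hxy]
  have hae : ∀ᵐ x ∂bern, x ∈ A := by
    exact (mem_ae_iff_prob_eq_one hAm).2 hA1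
  have hall : ∀ᵐ x ∂bern, ∀ γ, γ ≠ 1 → f' (sh γ x) ≠ f' x := by
    rw [ae_all_iff]
    intro γ
    by_cases hγ : γ = 1
    · exact Eventually.of_forall fun x h => absurd hγ h
    · filter_upwards [ae_free f' hf'm horb' hcong' γ hγ] with x hx _
      exact hx
  obtain ⟨x, hxA, hx⟩ := (hae.and hall).exists
  have hw : FreeGroup.of true ≠ (1 : FreeGroup Bool) := FreeGroup.of_ne_one true
  set w := FreeGroup.of true with hwdef
  have hit : ∀ k, (φ.map (u w).1)^[k] (f x) = f (sh (w ^ k) x) := by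
    intro k
    induction k with
    | zero =>
      rw [pow_zero, sh_one]
      rfl
    | succ k ih =>
      rw [Function.iterate_succ_apply', ih, pow_succ', ← sh_sh]
      exact (hu w _ (hAs _ _ hxA)).1.2
  obtain ⟨j, hj | ⟨i, hij, he⟩⟩ := h (u w).1 (f x)
  · rw [hit] at hj
    exact hj (hu w _ (hAs _ _ hxA)).1.1
  · rw [hit, hit] at he
    have h1 := hcong (w ^ i)⁻¹ _ (hAs _ _ hxA) _ (hAs _ _ hxA) he
    rw [sh_sh, sh_sh, inv_mul_cancel, sh_one] at h1
    have h2 : (w ^ i)⁻¹ * w ^ j = w ^ (j - i) := by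
      rw [inv_mul_eq_iff_eq_mul, ← pow_add, Nat.add_sub_cancel' hij.le]
    rw [h2] at h1
    have h3 : w ^ (j - i) ≠ 1 := by
      intro h4
      rw [pow_eq_one_iff_left (by omega)] at h4
      exact hw h4
    exact hx _ h3 (hf3 _ (hAs _ _ hxA) _ hxA h1.symm)

end Pool.Agent.Work.MP_d78dd4_lc
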