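import Pool.Agent.Work.MP_d78dd4_lc.MU.Defs

set_option autoImplicit false

/-!
# The tower of a generating sequence with finite forward orbits (module Tow, M)

Proof.  Let `θ := theta φ : ℕ → PartialEquiv X X` (see `../Core.lean`), `hθ := isBorelPI_theta φ`,
`T i := if i then TB hθ else TA X` and let `z ↦ (z.2, decide (z ∈ crossDom θ))` be composed with an injection
`e : ℤ × Bool → ℕ` (exists since `ℤ × Bool` is countable; Borel since the source is countable): this is `c`
(`measurableSet_crossDom`).  Everything before `hU'` in the proof of `q1_of_twoLabels` (`../Label.lean`)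
applies verbatim: `∀ z z', OrbT T z z' ↔ TRel φ z z'` is `e2` there (uses `tRel_iff`).

`LabFin T c`: let `L, s, z` be given and suppose the conclusion fails: for all `j`,
`vlab T c L (z j) = s` and `z i ≠ z j` for `i < j`, where `z j := (act T L)^[j] z`; so `z (j+1) = act T L (z j)`.
If `L = []` then `z 1 = z 0`, contradiction.  Otherwise `vlab_suffix` shows `c (act T M (z j)) = c (act T M (z 0))`
for all suffixes `M` of `L` and all `j`; in particular (`M = []`) the level `n := (z j).2` does not depend on `j`,
and for every suffix `M` the truth of `act T M (z j) ∈ crossDom θ` does not depend on `j`.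
As in `key` of `q1_of_twoLabels`, by induction on the suffix `M` of `L`: there is a word `N` with
`z j ∈ (word (tw θ) N).source` and `word (tw θ) N (z j) = act T M (z j)` for all `j` (for a letter `(true, b)`: if the
points are in `crossDom θ` add the letter, otherwise keep `N`, since then `crossAll` is the identity there).
For `M = L` let `N` be this word.  `machine θ N n` gives `Θ` and `n'` with: for all `y` with `(y, n) ∈ source`,
`y ∈ (word θ Θ).source` and `word (tw θ) N (y, n) = (word θ Θ y, n')`.  So with `z j = (x j, n)`: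
`x j ∈ (word θ Θ).source` and `x (j+1) = word θ Θ (x j)`.  By `exists_via_word φ (fun i => Nat.unpair i) Θ` there
is a pair `t` with `φ.Via t (x j) (x (j+1))` for all `j` (`theta φ = fun n => φ.pe (Nat.unpair n)` by `rfl`), i.e.
`x j ∈ φ.dom t.1`, `φ.map t.1 (x j) = x (j+1)`, hence `x j = (φ.map t.1)^[j] (x 0)`.  `FiniteForward φ` at `t.1`,
`x 0` gives `i < j` with `x i = x j`, so `z i = z j` (same level `n`), contradiction.
-/

namespace Pool.Agent.Work.MP_d78dd4_lc

theorem exists_tower {X : Type} [MeasurableSpace X] [StandardBorelSpace X] (φ : GenSeq X)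
    (h : FiniteForward φ) :
    ∃ (T : Bool → (X × ℤ) ≃ᵐ (X × ℤ)) (c : X × ℤ → ℕ), Measurable c ∧ LabFin T c ∧
      ∀ z z', OrbT T z z' ↔ TRel φ z z' := by
  classical
  let T : Bool → (X × ℤ) ≃ᵐ (X × ℤ) := fun i => if i then TB (isBorelPI_theta φ) else TA X
  obtain ⟨e, he⟩ : ∃ e : ℤ × Bool → ℕ, Function.Injective e := Countable.exists_injective_nat _
  let c : X × ℤ → ℕ := fun z => e (z.2, decide (z ∈ crossDom (theta φ)))
  have hc : Measurable c := by
    have h1 : Measurable fun z : X × ℤ => if z ∈ crossDom (theta φ) then true else false :=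
      Measurable.ite (measurableSet_crossDom (isBorelPI_theta φ)) measurable_const measurable_const
    have h2 : (fun z : X × ℤ => decide (z ∈ crossDom (theta φ))) =
        fun z : X × ℤ => if z ∈ crossDom (theta φ) then true else false := by
      funext z
      by_cases h3 : z ∈ crossDom (theta φ) <;> simp [h3]
    have h3 : Measurable fun z : X × ℤ => decide (z ∈ crossDom (theta φ)) := by
      rw [h2]
      exact h1
    exact (measurable_of_countable e).comp (measurable_snd.prodMk h3)
  have e0 := orbT_equiv T
  have hcr : ∀ z, TRel φ z (crossAll (theta φ) z) := by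
    intro z
    by_cases h1 : z ∈ crossDom (theta φ)
    · have h2 : crossAll (theta φ) z = cross (theta φ) z := by
        simp [crossAll, h1]
      rw [h2]
      exact cross_rel φ.rel_equiv (theta_rel φ) h1
    · have h2 : crossAll (theta φ) z = z := by
        simp [crossAll, h1]
      rw [h2]
      exact (tRel_equiv φ).refl _
  have e2 : ∀ z z', OrbT T z z' ↔ TRel φ z z' := by
    refine tRel_iff φ e0 ?_ (fun y n => ⟨[(false, true)], rfl⟩) (fun z hz => ⟨[(true, true)], ?_⟩)
    · rintro z z' ⟨L, rfl⟩
      induction L with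
      | nil => exact (tRel_equiv φ).refl _
      | cons l L ih =>
        refine (tRel_equiv φ).trans ih ?_
        obtain ⟨i, b⟩ := l
        cases i with
        | false => cases b <;> exact (tRel_equiv φ).refl _
        | true => cases b <;> exact hcr _
    · show crossAll (theta φ) z = cross (theta φ) z
      simp [crossAll, hz]
  refine ⟨T, c, hc, ?_, e2⟩
  intro L s z
  by_contra hcon
  push Not at hcon
  obtain ⟨zz, hzz⟩ : ∃ zz : ℕ → X × ℤ, zz = fun j => (act T L)^[j] z := ⟨_, rfl⟩
  have hz1 : ∀ j, zz (j + 1) = act T L (zz j) := by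
    intro j
    rw [hzz]
    exact Function.iterate_succ_apply' _ _ _
  have hinj : ∀ i j, i < j → zz i ≠ zz j := by
    intro i j hij
    rw [hzz]
    exact (hcon j).2 i hij
  have hs : ∀ j, vlab T c L (zz j) = s := by
    intro j
    rw [hzz]
    exact (hcon j).1
  have hL : L ≠ [] := by
    rintro rfl
    exact hinj 0 1 one_pos (by rw [hz1]; rfl)
  have hlab : ∀ M, M <:+ L → ∀ i j, c (act T M (zz i)) = c (act T M (zz j)) := by
    intro M hM i j
    exact vlab_suffix T c L hL (by rw [hs, hs]) M hM
  have hlev : ∀ i j, (zz i).2 = (zz j).2 := by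
    intro i j
    have h1 : c (zz i) = c (zz j) := hlab [] List.nil_suffix i j
    exact (Prod.ext_iff.1 (he h1)).1
  have key : ∀ M, M <:+ L → ∃ N, ∀ j, zz j ∈ (word (tw (theta φ)) N).source ∧
      word (tw (theta φ)) N (zz j) = act T M (zz j) := by
    intro M
    induction M with
    | nil => exact fun _ => ⟨[], fun z => ⟨trivial, rfl⟩⟩
    | cons l M ih =>
      intro hM
      have hM' : M <:+ L := (List.suffix_cons l M).trans hM
      obtain ⟨N, hN⟩ := ih hM'
      obtain ⟨i, b⟩ := l
      cases i with
      | false =>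
        refine ⟨(false, b) :: N, fun j => ⟨word_cons_mem.2 ⟨(hN j).1, ?_⟩, ?_⟩⟩
        · cases b <;> trivial
        · show letter (tw (theta φ)) (false, b) (word (tw (theta φ)) N (zz j)) = _
          rw [(hN j).2]
          cases b <;> rfl
      | true =>
        have h1 : ∀ j, act T ((true, b) :: M) (zz j) = crossAll (theta φ) (act T M (zz j)) := by
          intro j
          cases b <;> rfl
        by_cases h2 : ∃ j₀, act T M (zz j₀) ∈ crossDom (theta φ)
        · obtain ⟨j₀, hj₀⟩ := h2
          have h3 : ∀ j, act T M (zz j) ∈ crossDom (theta φ) := by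
            intro j
            have h4 := (Prod.ext_iff.1 (he (hlab M hM' j j₀))).2
            simp only at h4
            rw [decide_eq_true hj₀] at h4
            exact of_decide_eq_true h4
          refine ⟨(true, b) :: N, fun j => ⟨word_cons_mem.2 ⟨(hN j).1, ?_⟩, ?_⟩⟩
          · rw [(cross_letter (theta φ) b).1, (hN j).2]
            exact h3 j
          · show letter (tw (theta φ)) (true, b) (word (tw (theta φ)) N (zz j)) = _
            rw [(hN j).2, (cross_letter (theta φ) b).2, h1, crossAll, if_pos (h3 j)]
        · refine ⟨N, fun j => ⟨(hN j).1, ?_⟩⟩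
          rw [(hN j).2, h1, crossAll, if_neg fun h3 => h2 ⟨j, h3⟩]
  obtain ⟨N, hN⟩ := key L (List.suffix_refl _)
  obtain ⟨Θ, n', hΘ⟩ := machine (theta φ) N (zz 0).2
  obtain ⟨t, ht⟩ := exists_via_word φ Nat.unpair Θ
  have hvia : ∀ j, φ.Via t (zz j).1 (zz (j + 1)).1 := by
    intro j
    have h1 : ((zz j).1, (zz 0).2) = zz j := Prod.ext rfl (hlev 0 j)
    have h2 : ((zz j).1, (zz 0).2) ∈ (word (tw (theta φ)) N).source := by
      rw [h1]
      exact (hN j).1
    obtain ⟨h3, h4⟩ := hΘ _ h2
    rw [h1, (hN j).2, ← hz1] at h4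
    have h5 : (zz (j + 1)).1 = word (theta φ) Θ (zz j).1 := congrArg Prod.fst h4
    rw [h5]
    exact ht _ h3
  have hit : ∀ j, (φ.map t.1)^[j] (zz 0).1 = (zz j).1 := by
    intro j
    induction j with
    | zero => rfl
    | succ j ih =>
      rw [Function.iterate_succ_apply', ih]
      exact (hvia j).1.2
  obtain ⟨j, hj⟩ := h t.1 (zz 0).1
  rcases hj with hj | ⟨i, hi, hj⟩
  · apply hj
    rw [hit]
    exact (hvia j).1.1
  · rw [hit, hit] at hj
    exact hinj i j hi (Prod.ext hj (hlev i j))

end Pool.Agent.Work.MP_d78dd4_lc
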