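import Pool.Agent.Work.MP_d78dd4_lc.MU.Seq
import Pool.Agent.Work.MP_d78dd4_lc.MU.Emb
import Pool.Agent.Work.MP_d78dd4_lc.MU.Tow
import Pool.Agent.Work.MP_d78dd4_lc.MU.BBM
import Pool.Agent.Work.MP_d78dd4_lc.MU.Ker
import Pool.Agent.Work.MP_d78dd4_lc.MU.NotUnif

set_option autoImplicit false

/-!
# Assembly
-/

namespace Pool.Agent.Work.MP_d78dd4_lc

open MeasureTheory ProbabilityTheory

/-- every relation with a generating sequence with finite forward orbits reduces to the relation of `Star` -/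
theorem exists_red_star {X : Type} [MeasurableSpace X] [StandardBorelSpace X] (θ : GenSeq X)
    (h : FiniteForward θ) : ∃ f : X → Star, BorelRed θ.Rel (OrbT starT) f := by
  obtain ⟨T, c, hc, hT, hrel⟩ := exists_tower θ h
  obtain ⟨f, hf, hfr⟩ := exists_emb T hc hT
  refine ⟨fun x => f (x, 0), hf.comp (measurable_id.prodMk measurable_const), fun x y => ?_⟩
  rw [← hfr, hrel]
  exact Iff.rfl

/-- the kernel version of measure universality -/
theorem kernel_version {Z Y : Type} [MeasurableSpace Z] [StandardBorelSpace Z] [MeasurableSpace Y]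
    [StandardBorelSpace Y] (K : Kernel Z Y) [IsMarkovKernel K] {F : Y → Y → Prop} (hF : IsCBER F) :
    ∃ (A : Set (Z × Y)) (f : Z × Y → Star), MeasurableSet A ∧ (∀ z, K z {y | (z, y) ∈ A} = 1) ∧
      (∀ z y y', (z, y) ∈ A → F y y' → (z, y') ∈ A) ∧ Measurable f ∧
      ∀ w ∈ A, ∀ w' ∈ A, ((w.1 = w'.1 ∧ F w.2 w'.2) ↔ OrbT starT (f w) (f w')) := by
  obtain ⟨κ, hκ, H⟩ := exists_kappa (isCBER_prod (Z := Z) hF)
  obtain ⟨g, hg, hA, hK⟩ := exists_bound K hF κ hκ
  set A : Set (Z × Y) := {w : Z × Y | ∀ y, F w.2 y → ∃ N, ∀ n, N ≤ n → κ (w.1, y) n ≤ g w.1 n} with hAdef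
  have hinv : ∀ z y y', (z, y) ∈ A → F y y' → (z, y') ∈ A := by
    intro z y y' h1 h2 y'' h3
    exact h1 y'' (hF.equiv.trans h2 h3)
  obtain ⟨θ, hθ, hθf⟩ := H (fun w => g w.1) A (hg.comp measurable_fst) hA
    (by
      rintro ⟨z, y⟩ h1 ⟨z', y'⟩ ⟨h2, h3⟩
      have h2' : z = z' := h2
      subst h2'
      exact hinv z y y' h1 h3)
    (fun w hw => hw w.2 (hF.equiv.refl _))
    (fun w w' hw => by
      show g w.1 = g w'.1
      rw [hw.1])
  obtain ⟨f, hf, hfr⟩ := exists_red_star θ hθf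
  refine ⟨A, f, hA, hK, hinv, hf, fun w hw w' hw' => ?_⟩
  rw [← hfr, hθ]
  constructor
  · exact fun h => Or.inr ⟨hw, h⟩
  · rintro (h | h)
    · rw [h]
      exact ⟨rfl, hF.equiv.refl _⟩
    · exact h.2

theorem measUniversal_star : MeasUniversal (OrbT starT) := by
  refine ⟨?_, fun Z Y _ _ _ _ F hF K _ => kernel_version K hF⟩
  obtain ⟨φ, hφ, -⟩ := labFin_seq starT (c := starC)
    (measurable_labS.comp measurable_subtype_coe) labFin_star
  have h1 : φ.Rel = OrbT starT := by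
    funext x y
    exact propext (hφ x y)
  rw [← h1]
  exact φ.isCBER

/-- the main theorem -/
theorem measure_version :
    ∃ (X : Type) (_ : MeasurableSpace X) (_ : StandardBorelSpace X) (φ : GenSeq X),
      FiniteForward φ ∧
      (∀ (Y : Type) [MeasurableSpace Y] [StandardBorelSpace Y] (θ : GenSeq Y), FiniteForward θ →
        ∃ f : Y → X, BorelRed θ.Rel φ.Rel f) ∧
      MeasUniversal φ.Rel ∧ ¬ UnifMeasUniversal φ := by
  obtain ⟨φ, hφ, hfin⟩ := labFin_seq starT (c := starC)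
    (measurable_labS.comp measurable_subtype_coe) labFin_star
  have h1 : φ.Rel = OrbT starT := by
    funext x y
    exact propext (hφ x y)
  refine ⟨Star, inferInstance, inferInstance, φ, hfin, ?_, ?_, not_unifMeasUniversal φ hfin⟩
  · intro Y _ _ θ hθ
    rw [h1]
    exact exists_red_star θ hθ
  · rw [h1]
    exact measUniversal_star

end Pool.Agent.Work.MP_d78dd4_lc
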