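import Pool.Agent.Work.MP_d78dd4_lc.MU.Defs

set_option autoImplicit false

/-!
# The generating sequence of all labelled words (module Seq, S)

Proof.  `exists_labelled_seq`: COPY of the first part of the proof of `exists_labelled` in `../Label.lean`
(the family `I = List (Bool × Bool) × List (C × C)`, domain `{x | vlab T c L x = s}`, map `act T L`, closed
under composition by `vlab_append`, `act_append`, `length_vlab`; if a list of labels has the wrong length the
domain is empty); `exists_genSeq_of_family` gives `φ` and `e` with `h2 : φ.dom n = ...`, `h3 : φ.map n = ...`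
(if `h3` is only pointwise use `funext`).

`labFin_seq`: take `φ` from `exists_labelled_seq`; `FiniteForward φ` at `n`, `x` is `LabFin T c` at the `L`, `s`
of `n` and `x` (rewrite `φ.dom n`, `φ.map n`).
-/

namespace Pool.Agent.Work.MP_d78dd4_lc

theorem exists_labelled_seq {X C : Type} [MeasurableSpace X] [StandardBorelSpace X] [Countable C]
    [MeasurableSpace C] [MeasurableSingletonClass C] (T : Bool → X ≃ᵐ X) {c : X → C}
    (hc : Measurable c) :
    ∃ φ : GenSeq X, (∀ x y, φ.Rel x y ↔ OrbT T x y) ∧
      ∀ n, ∃ (L : List (Bool × Bool)) (s : List (C × C)),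
        φ.dom n = {x | vlab T c L x = s} ∧ φ.map n = act T L := by
  obtain ⟨φ, e, h1, h2, h3⟩ := exists_genSeq_of_family (I := List (Bool × Bool) × List (C × C))
    (fun i => {x : X | vlab T c i.1 x = i.2}) (fun i => act T i.1)
    (fun i => measurableSet_vlab T hc i.1 i.2) (fun i => measurable_act T _) (by
      refine ⟨([], []), ?_, fun x => rfl⟩
      ext x
      simp [vlab]) (by
      intro m n
      by_cases hn : n.2.length = n.1.length
      · by_cases hm : m.2.length = m.1.length
        · refine ⟨(m.1 ++ n.1, m.2 ++ n.2), ?_, fun x _ => act_append T n.1 m.1 x⟩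
          ext x
          show vlab T c (m.1 ++ n.1) x = m.2 ++ n.2 ↔
            vlab T c n.1 x = n.2 ∧ vlab T c m.1 (act T n.1 x) = m.2
          rw [vlab_append]
          constructor
          · intro h4
            have h5 := List.append_inj h4 (by rw [length_vlab, hm])
            exact ⟨h5.2, h5.1⟩
          · rintro ⟨h4, h5⟩
            rw [h4, h5]
        · have h4 : ∀ x, vlab T c m.1 x ≠ m.2 := fun x hx => hm (by rw [← hx, length_vlab])
          refine ⟨m, ?_, fun x hx => absurd hx (h4 x)⟩
          ext x
          constructor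
          · intro hx
            exact absurd hx (h4 x)
          · rintro ⟨_, hx⟩
            exact absurd hx (h4 _)
      · have h4 : ∀ x, vlab T c n.1 x ≠ n.2 := fun x hx => hn (by rw [← hx, length_vlab])
        refine ⟨n, ?_, fun x hx => absurd hx (h4 x)⟩
        ext x
        constructor
        · intro hx
          exact absurd hx (h4 x)
        · rintro ⟨hx, _⟩
          exact absurd hx (h4 _))
  have h4 : ∀ x y, φ.Rel x y ↔ OrbT T x y := by
    intro x y
    constructor
    · rintro ⟨q, hq⟩
      refine ⟨(e q.1).1, ?_⟩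
      have h5 := hq.1.2
      rw [h3] at h5
      exact h5
    · rintro ⟨L, rfl⟩
      obtain ⟨m, hm⟩ := h1 (L, vlab T c L x)
      obtain ⟨n, hn⟩ := h1 (invW L, vlab T c (invW L) (act T L x))
      refine ⟨(m, n), ⟨?_, ?_⟩, ⟨?_, ?_⟩⟩
      · rw [h2, hm]
        rfl
      · show φ.map m x = _
        rw [h3, hm]
      · rw [h2, hn]
        rfl
      · show φ.map n (act T L x) = _
        rw [h3, hn]
        exact act_inv T L x
  exact ⟨φ, h4, fun n => ⟨(e n).1, (e n).2, h2 n, h3 n⟩⟩

theorem labFin_seq {X C : Type} [MeasurableSpace X] [StandardBorelSpace X] [Countable C]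
    [MeasurableSpace C] [MeasurableSingletonClass C] (T : Bool → X ≃ᵐ X) {c : X → C}
    (hc : Measurable c) (h : LabFin T c) :
    ∃ φ : GenSeq X, (∀ x y, φ.Rel x y ↔ OrbT T x y) ∧ FiniteForward φ := by
  obtain ⟨φ, h1, h2⟩ := exists_labelled_seq T hc
  refine ⟨φ, h1, fun n x => ?_⟩
  obtain ⟨L, s, hd, hm⟩ := h2 n
  rw [hd, hm]
  exact h L s x

end Pool.Agent.Work.MP_d78dd4_lc
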